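import Pool.Agent.helper17.Disc.F

/-!
# MP_8bf294_an: the discrepancy bound fails in dimension three

For every `m ≥ 3` there are `m` points in `[0,1)^3` whose star discrepancy (equal weights `1/m`) is
at most `C (log m)^2 / (m (log log m)^2)`.
-/

set_option autoImplicit false

namespace Pool.Agent.Results.MP_8bf294_an.DiscrepancyDimensionThree

/-- Point sets of every size in the cube with small discrepancy. -/
theorem result : ∃ C : ℝ, 0 < C ∧ ∀ m : ℕ, 3 ≤ m →
    ∃ ξ : Fin m → Fin 3 → ℝ, (∀ μ j, ξ μ j ∈ Set.Ico (0 : ℝ) 1) ∧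
      ∀ t : Fin 3 → ℝ, (∀ j, t j ∈ Set.Icc (0 : ℝ) 1) →
        |(∑ μ : Fin m, (1 / (m : ℝ)) * ∏ j : Fin 3, (if ξ μ j < t j then (1 : ℝ) else 0))
          - ∏ j : Fin 3, t j|
          ≤ C * (Real.log m) ^ 2 / (m * (Real.log (Real.log m)) ^ 2) := by
  obtain ⟨C, hC, h⟩ := Pool.Agent.helper82.Disc.all_M
  refine ⟨C + 1, by positivity, fun m hm => ?_⟩
  obtain ⟨z, hz, hD⟩ := h m hm
  have hm0 : (0 : ℝ) < m := by
    have : 0 < m := by omega
    exact_mod_cast this
  have hm3 : (3 : ℝ) ≤ m := by exact_mod_cast hm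
  have hexp : Real.exp 1 < 3 := by
    have := Real.exp_one_lt_d9
    linarith
  have hlog1 : 1 < Real.log m := by
    rw [Real.lt_log_iff_exp_lt hm0]
    linarith
  have hll : 0 < Real.log (Real.log m) := Real.log_pos hlog1
  have hle : Real.log (Real.log m) ≤ Real.log m := by
    have h1 : Real.log (Real.log m) ≤ Real.log m - 1 := Real.log_le_sub_one_of_pos (by linarith)
    linarith
  have hratio : 1 ≤ (Real.log m / Real.log (Real.log m)) ^ 2 := by
    have h1 : 1 ≤ Real.log m / Real.log (Real.log m) := by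
      rw [le_div_iff₀ hll]
      linarith
    nlinarith
  refine ⟨fun μ => ![(z μ).1, (z μ).2, (μ : ℕ) / m], ?_, ?_⟩
  · intro μ j
    fin_cases j
    · exact (hz μ).1
    · exact (hz μ).2
    · have h1 : ((μ : ℕ) : ℝ) < m := by exact_mod_cast μ.2
      have h2 : (0 : ℝ) ≤ ((μ : ℕ) : ℝ) / m := by positivity
      exact ⟨h2, (div_lt_one hm0).2 h1⟩
  · intro t ht
    set k : ℕ := ⌈(m : ℝ) * t 2⌉₊ with hk
    have ht2 : 0 ≤ t 2 := (ht 2).1
    have hmt : 0 ≤ (m : ℝ) * t 2 := by positivity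
    have hkm : k ≤ m := by
      rw [hk]
      refine Nat.ceil_le.2 ?_
      have h1 := (ht 2).2
      nlinarith
    have hk1 : (m : ℝ) * t 2 ≤ k := Nat.le_ceil _
    have hk2 : (k : ℝ) < (m : ℝ) * t 2 + 1 := Nat.ceil_lt_add_one hmt
    have hcount : (∑ μ : Fin m, (1 / (m : ℝ)) * ∏ j : Fin 3,
        (if (![(z μ).1, (z μ).2, ((μ : ℕ) : ℝ) / m] : Fin 3 → ℝ) j < t j then (1 : ℝ) else 0)) =
        (1 / (m : ℝ)) *
          (((Finset.range k).filter (fun i => (z i).1 < t 0 ∧ (z i).2 < t 1)).card : ℝ) := by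
      rw [← Finset.mul_sum]
      congr 1
      have h1 : ∀ μ : Fin m, (∏ j : Fin 3,
          (if (![(z μ).1, (z μ).2, ((μ : ℕ) : ℝ) / m] : Fin 3 → ℝ) j < t j then (1 : ℝ) else 0)) =
          (fun i : ℕ => if i < k ∧ (z i).1 < t 0 ∧ (z i).2 < t 1 then (1 : ℝ) else 0) μ := by
        intro μ
        rw [Fin.prod_univ_three]
        simp only [Matrix.cons_val_zero, Matrix.cons_val_one, Matrix.cons_val]
        have h2 : (((μ : ℕ) : ℝ) / m < t 2) ↔ (μ : ℕ) < k := by
          rw [div_lt_iff₀ hm0, hk, Nat.lt_ceil, mul_comm (t 2)]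
        by_cases h3 : (z μ).1 < t 0 <;> by_cases h4 : (z μ).2 < t 1 <;>
          by_cases h5 : (μ : ℕ) < k <;> simp [h2, h3, h4, h5]
      rw [Finset.sum_congr rfl (fun μ _ => h1 μ), Fin.sum_univ_eq_sum_range
        (fun i : ℕ => if i < k ∧ (z i).1 < t 0 ∧ (z i).2 < t 1 then (1 : ℝ) else 0) m,
        Finset.card_filter]
      push_cast
      have h3 : ∑ i ∈ Finset.range k, (if (z i).1 < t 0 ∧ (z i).2 < t 1 then (1 : ℝ) else 0) =
          ∑ i ∈ Finset.range k,
            (if i < k ∧ (z i).1 < t 0 ∧ (z i).2 < t 1 then (1 : ℝ) else 0) := by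
        refine Finset.sum_congr rfl (fun i hi => ?_)
        have h4 : i < k := Finset.mem_range.1 hi
        by_cases h5 : (z i).1 < t 0 ∧ (z i).2 < t 1
        · rw [if_pos h5, if_pos ⟨h4, h5⟩]
        · rw [if_neg h5, if_neg (fun h6 => h5 h6.2)]
      rw [h3]
      refine (Finset.sum_subset (Finset.range_subset_range.2 hkm) ?_).symm
      intro i _ hi
      have h4 : ¬ i < k := fun h5 => hi (Finset.mem_range.2 h5)
      exact if_neg (fun h5 => h4 h5.1)
    rw [hcount, Fin.prod_univ_three]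
    have h1 := hD k hkm (t 0) (ht 0) (t 1) (ht 1)
    set N : ℝ := (((Finset.range k).filter (fun i => (z i).1 < t 0 ∧ (z i).2 < t 1)).card : ℝ)
    have ht01 : 0 ≤ t 0 * t 1 ∧ t 0 * t 1 ≤ 1 := by
      refine ⟨mul_nonneg (ht 0).1 (ht 1).1, mul_le_one₀ (ht 0).2 (ht 1).1 (ht 1).2⟩
    have h2 : |(k : ℝ) * t 0 * t 1 - m * (t 0 * t 1 * t 2)| ≤ 1 := by
      have h3 : (k : ℝ) * t 0 * t 1 - m * (t 0 * t 1 * t 2) =
          (t 0 * t 1) * ((k : ℝ) - m * t 2) := by ring
      rw [h3, abs_mul, abs_of_nonneg ht01.1, abs_of_nonneg (by linarith)]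
      nlinarith [ht01.2, ht01.1]
    have h4 : |N - m * (t 0 * t 1 * t 2)| ≤
        (C + 1) * (Real.log m / Real.log (Real.log m)) ^ 2 := by
      calc |N - m * (t 0 * t 1 * t 2)| =
          |(N - k * t 0 * t 1) + ((k : ℝ) * t 0 * t 1 - m * (t 0 * t 1 * t 2))| := by ring_nf
        _ ≤ |N - k * t 0 * t 1| + |(k : ℝ) * t 0 * t 1 - m * (t 0 * t 1 * t 2)| := abs_add_le _ _
        _ ≤ C * (Real.log m / Real.log (Real.log m)) ^ 2 + 1 := add_le_add h1 h2
        _ ≤ _ := by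
          rw [add_mul, one_mul]
          linarith
    have h5 : (1 / (m : ℝ)) * N - t 0 * t 1 * t 2 =
        (1 / (m : ℝ)) * (N - m * (t 0 * t 1 * t 2)) := by
      field_simp
    rw [h5, abs_mul, abs_of_pos (by positivity : (0 : ℝ) < 1 / (m : ℝ))]
    calc (1 / (m : ℝ)) * |N - m * (t 0 * t 1 * t 2)| ≤
        (1 / (m : ℝ)) * ((C + 1) * (Real.log m / Real.log (Real.log m)) ^ 2) :=
          mul_le_mul_of_nonneg_left h4 (by positivity)
      _ = _ := by
        field_simp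

end Pool.Agent.Results.MP_8bf294_an.DiscrepancyDimensionThree
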