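import Pool.Agent.helper39.GDMain

set_option autoImplicit false

namespace Pool.Agent.Results.MP_8bf294_an.PlanarCase

/-- The planar case of the conjecture, for every smoothness `r ≥ 1`, with arbitrary real weights. -/
theorem result :
    ∀ r : ℕ, 1 ≤ r →
      ∃ C : ℝ, 0 < C ∧
        ∀ m : ℕ, 1 ≤ m →
          ∀ ξ : Fin m → Fin 2 → ℝ, (∀ μ j, ξ μ j ∈ Set.Icc (0:ℝ) 1) →
            ∀ w : Fin m → ℝ,
              ∃ t : Fin 2 → ℝ, (∀ j, t j ∈ Set.Icc (0:ℝ) 1) ∧
                C * Real.log (m:ℝ) / (m:ℝ) ^ r ≤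
                  |(∑ μ : Fin m, w μ * ∏ j : Fin 2,
                      (if ξ μ j < t j then (t j - ξ μ j) ^ (r - 1) / ((r - 1).factorial : ℝ) else 0))
                    - ∏ j : Fin 2, (t j ^ r / (r.factorial : ℝ))| := by
  intro r hr
  obtain ⟨C, hC, h⟩ := Pool.Agent.helper39.GD.planar r hr
  refine ⟨C, hC, fun m hm ξ _ w => ?_⟩
  obtain ⟨t₁, t₂, h1, h2, h3⟩ := h m hm (fun μ => ξ μ 0) (fun μ => ξ μ 1) w
  refine ⟨![t₁, t₂], ?_, ?_⟩
  · intro j
    fin_cases j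
    · exact h1
    · exact h2
  · simp only [Fin.prod_univ_two, Matrix.cons_val_zero, Matrix.cons_val_one]
    exact h3

end Pool.Agent.Results.MP_8bf294_an.PlanarCase
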